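import Mathlib
import Pool.Agent.Helper73.PsdGeom

/-!
# Facets of psd-minimal polytopes

We prove that a psd-minimal `d`-polytope has at most `(3 ^ (d + 1) - 1) / 2` facets.
-/

namespace Pool.Agent.Results.MP_d7e3e4_co.FacetBound

open Pool.Agent.Helper73.Psd

/-- A `d`-polytope in `ℝ^d`: the convex hull of a finite set whose affine span is everything. -/
def IsPolytope {d : ℕ} (P : Set (EuclideanSpace ℝ (Fin d))) : Prop :=
  (∃ V : Set (EuclideanSpace ℝ (Fin d)), V.Finite ∧ P = convexHull ℝ V) ∧ affineSpan ℝ P = ⊤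

/-- The vertices of `P`: its extreme points. -/
abbrev Vertex {d : ℕ} (P : Set (EuclideanSpace ℝ (Fin d))) : Type := ↥(P.extremePoints ℝ)

/-- `F` is a facet of `P`: a nonempty exposed face of affine dimension `d - 1`. -/
def IsFacet {d : ℕ} (P F : Set (EuclideanSpace ℝ (Fin d))) : Prop :=
  IsExposed ℝ P F ∧ F.Nonempty ∧ Module.finrank ℝ (vectorSpan ℝ F) + 1 = d

/-- The facets of `P`. -/
abbrev Facet {d : ℕ} (P : Set (EuclideanSpace ℝ (Fin d))) : Type :=
  ↥{F : Set (EuclideanSpace ℝ (Fin d)) | IsFacet P F}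

/-- `b - ⟪a, x⟫ ≥ 0` is a valid inequality of `P` that defines the face `F`. -/
def Defines {d : ℕ} (P F : Set (EuclideanSpace ℝ (Fin d))) (a : EuclideanSpace ℝ (Fin d))
    (b : ℝ) : Prop :=
  (∀ x ∈ P, 0 ≤ b - inner ℝ a x) ∧ F = {x | x ∈ P ∧ b - inner ℝ a x = 0}

/-- `S` is a slack matrix of `P`: its entry at a vertex `v` and a facet `F` is
`b_F - ⟪a_F, v⟫`, where `b_F - ⟪a_F, x⟫ ≥ 0` is a facet-defining inequality of `F`. -/
def IsSlackMatrix {d : ℕ} (P : Set (EuclideanSpace ℝ (Fin d)))
    (S : Matrix (Vertex P) (Facet P) ℝ) : Prop :=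
  ∃ (a : Facet P → EuclideanSpace ℝ (Fin d)) (b : Facet P → ℝ),
    (∀ F : Facet P, Defines P F (a F) (b F)) ∧
      ∀ (v : Vertex P) (F : Facet P), S v F = b F - inner ℝ (a F) (v : EuclideanSpace ℝ (Fin d))

/-- `S` has a psd factorization of size `k`. -/
def HasPsdFactorization {ι κ : Type} (S : Matrix ι κ ℝ) (k : ℕ) : Prop :=
  ∃ (A : ι → Matrix (Fin k) (Fin k) ℝ) (B : κ → Matrix (Fin k) (Fin k) ℝ),
    (∀ i, (A i).PosSemidef) ∧ (∀ j, (B j).PosSemidef) ∧ ∀ i j, S i j = (A i * B j).trace

/-- The psd rank of `S`. -/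
noncomputable def psdRank {ι κ : Type} (S : Matrix ι κ ℝ) : ℕ :=
  sInf {k | HasPsdFactorization S k}

/-- A `d`-polytope `P` is psd-minimal: it has a slack matrix of psd rank `d + 1`. -/
def IsPsdMinimal {d : ℕ} (P : Set (EuclideanSpace ℝ (Fin d))) : Prop :=
  ∃ S : Matrix (Vertex P) (Facet P) ℝ, IsSlackMatrix P S ∧ psdRank S = d + 1

/-- A face defined by a valid inequality is the convex hull of its vertices. -/
theorem face_eq_convexHull {d : ℕ} {P : Set (EuclideanSpace ℝ (Fin d))}
    (hconv : convexHull ℝ (P.extremePoints ℝ) = P) (f : Module.Dual ℝ (EuclideanSpace ℝ (Fin d)))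
    (c : ℝ) (hf : ∀ x ∈ P, 0 ≤ c - f x) :
    {x | x ∈ P ∧ c - f x = 0} = convexHull ℝ {x | x ∈ P.extremePoints ℝ ∧ c - f x = 0} := by
  apply Set.Subset.antisymm
  · rintro x ⟨hx, hx0⟩
    rw [← hconv] at hx
    exact mem_convexHull_zeros _ f c (fun s hs => hf s (extremePoints_subset hs)) x hx hx0
  · apply convexHull_min
    · rintro x ⟨hx, hx0⟩
      exact ⟨extremePoints_subset hx, hx0⟩
    · have h1 : Convex ℝ P := by rw [← hconv]; exact convex_convexHull ℝ _
      have h2 : Convex ℝ {x | c - f x = 0} := by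
        intro x hx y hy s t _ _ hst
        show c - f (s • x + t • y) = 0
        have hx' : c - f x = 0 := hx
        have hy' : c - f y = 0 := hy
        rw [map_add, map_smul, map_smul, smul_eq_mul, smul_eq_mul]
        have h3 : c - (s * f x + t * f y) = s * (c - f x) + t * (c - f y) := by
          have h4 : c = s * c + t * c := by rw [← add_mul, hst, one_mul]
          linear_combination h4
        rw [h3, hx', hy']; ring
      exact h1.inter h2

/-- **Main result.** A psd-minimal `d`-polytope has at most `(3 ^ (d + 1) - 1) / 2` facets. -/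
theorem result (d : ℕ) (hd : 1 ≤ d) (P : Set (EuclideanSpace ℝ (Fin d)))
    (hP : IsPolytope P) (hmin : IsPsdMinimal P) :
    {F : Set (EuclideanSpace ℝ (Fin d)) | IsFacet P F}.Finite ∧
      {F : Set (EuclideanSpace ℝ (Fin d)) | IsFacet P F}.ncard ≤ (3 ^ (d + 1) - 1) / 2 := by
  classical
  obtain ⟨hfin, hconv⟩ := convexHull_extremePoints hP.1
  obtain ⟨S, ⟨a, b, hdef, hSval⟩, hrankS⟩ := hmin
  have : Fintype (Vertex P) := hfin.fintype
  -- the vertices are nonempty
  have hPne : P.Nonempty := by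
    rw [Set.nonempty_iff_ne_empty]
    intro hcon
    have h1 := hP.2
    rw [hcon, AffineSubspace.span_empty] at h1
    exact bot_ne_top h1
  have hextne : (P.extremePoints ℝ).Nonempty := by
    rw [Set.nonempty_iff_ne_empty]
    intro hcon
    rw [hcon, convexHull_empty] at hconv
    rw [← hconv] at hPne
    exact Set.not_nonempty_empty hPne
  -- homogenisation
  let v : Vertex P → EuclideanSpace ℝ (Fin d) × ℝ := fun i => ((i : EuclideanSpace ℝ (Fin d)), 1)
  let toF : Facet P → Module.Dual ℝ (EuclideanSpace ℝ (Fin d)) := fun F =>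
    (innerSL ℝ (a F)).toLinearMap
  have htoF : ∀ F x, toF F x = inner ℝ (a F) x := fun F x => rfl
  let mk : Module.Dual ℝ (EuclideanSpace ℝ (Fin d)) → ℝ →
      Module.Dual ℝ (EuclideanSpace ℝ (Fin d) × ℝ) := fun f c =>
    c • LinearMap.snd ℝ _ ℝ - f.comp (LinearMap.fst ℝ _ ℝ)
  have hmk : ∀ f c i, mk f c (v i) = c - f (i : EuclideanSpace ℝ (Fin d)) := by
    intro f c i
    simp [mk, v]
  let h : Facet P → Module.Dual ℝ (EuclideanSpace ℝ (Fin d) × ℝ) := fun F => mk (toF F) (b F)
  have hh : ∀ F i, h F (v i) = b F - inner ℝ (a F) (i : EuclideanSpace ℝ (Fin d)) := by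
    intro F i
    rw [show h F = mk (toF F) (b F) from rfl, hmk, htoF]
  -- faces
  have hface : ∀ F : Facet P, (F : Set (EuclideanSpace ℝ (Fin d))) =
      convexHull ℝ {x | x ∈ P.extremePoints ℝ ∧ b F - inner ℝ (a F) x = 0} := by
    intro F
    have h1 := face_eq_convexHull hconv (toF F) (b F) (hdef F).1
    rw [(hdef F).2]
    exact h1
  have hmemF : ∀ (F : Facet P) (i : Vertex P), h F (v i) = 0 ↔
      (i : EuclideanSpace ℝ (Fin d)) ∈ (F : Set (EuclideanSpace ℝ (Fin d))) := by
    intro F i
    rw [hh, (hdef F).2]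
    constructor
    · intro h1
      exact ⟨extremePoints_subset i.2, h1⟩
    · rintro ⟨_, h1⟩
      exact h1
  have hdetF : ∀ F G : Facet P, (∀ i, h F (v i) = 0 ↔ h G (v i) = 0) → F = G := by
    intro F G hFG
    apply Subtype.ext
    rw [hface F, hface G]
    congr 1
    ext x
    constructor
    · rintro ⟨hx, hx0⟩
      refine ⟨hx, ?_⟩
      have h1 := (hFG ⟨x, hx⟩).1 (by rw [hh]; exact hx0)
      rwa [hh] at h1
    · rintro ⟨hx, hx0⟩
      refine ⟨hx, ?_⟩
      have h1 := (hFG ⟨x, hx⟩).2 (by rw [hh]; exact hx0)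
      rwa [hh] at h1
  have hfinF : Finite (Facet P) := by
    refine Finite.of_injective (fun F : Facet P => {i : Vertex P | h F (v i) = 0}) ?_
    intro F G hFG
    apply hdetF
    intro i
    exact Set.ext_iff.1 hFG i
  have : Fintype (Facet P) := Fintype.ofFinite _
  -- ranks
  have hrk : ∀ T : Finset (Vertex P), T.Nonempty →
      rk v T = Module.finrank ℝ (vectorSpan ℝ
        ((fun i : Vertex P => (i : EuclideanSpace ℝ (Fin d))) '' (T : Set (Vertex P)))) + 1 := by
    intro T hT
    rw [← finrank_span_homog _ (Set.Nonempty.image _ (Finset.coe_nonempty.2 hT))]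
    rw [rk, Set.image_image]
  have hface_rk : ∀ (f : Module.Dual ℝ (EuclideanSpace ℝ (Fin d))) (c : ℝ),
      (∀ x ∈ P, 0 ≤ c - f x) → (zs v (mk f c) Finset.univ).Nonempty →
      rk v (zs v (mk f c) Finset.univ) =
        Module.finrank ℝ (vectorSpan ℝ {x | x ∈ P ∧ c - f x = 0}) + 1 := by
    intro f c hf hne
    have hset : ((fun i : Vertex P => (i : EuclideanSpace ℝ (Fin d))) ''
        (zs v (mk f c) Finset.univ : Set (Vertex P))) =
        {x | x ∈ P.extremePoints ℝ ∧ c - f x = 0} := by
      ext x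
      constructor
      · rintro ⟨i, hi, rfl⟩
        refine ⟨i.2, ?_⟩
        rw [← hmk]
        exact (mem_zs.1 (Finset.mem_coe.1 hi)).2
      · rintro ⟨hx, hx0⟩
        exact ⟨⟨x, hx⟩, Finset.mem_coe.2 (mem_zs.2 ⟨Finset.mem_univ _, by rw [hmk]; exact hx0⟩),
          rfl⟩
    rw [hrk _ hne, face_eq_convexHull hconv f c hf, vectorSpan_convexHull, hset]
  have hrank : rk v Finset.univ = d + 1 := by
    rw [hrk _ (Finset.univ_nonempty_iff.2 ⟨⟨_, hextne.some_mem⟩⟩)]
    have h1 : (fun i : Vertex P => (i : EuclideanSpace ℝ (Fin d))) ''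
        ((Finset.univ : Finset (Vertex P)) : Set (Vertex P)) = P.extremePoints ℝ := by
      rw [Finset.coe_univ, Set.image_univ]
      exact Subtype.range_coe
    rw [h1, ← vectorSpan_convexHull, hconv, ← direction_affineSpan, hP.2,
      AffineSubspace.direction_top, finrank_top, finrank_euclideanSpace, Fintype.card_fin]
  have hE : Module.finrank ℝ (EuclideanSpace ℝ (Fin d) × ℝ) = d + 1 := by
    rw [Module.finrank_prod, finrank_euclideanSpace, Fintype.card_fin, Module.finrank_self]
  have hpos : ∃ g0 : Module.Dual ℝ (EuclideanSpace ℝ (Fin d) × ℝ), ∀ i, 0 < g0 (v i) :=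
    ⟨LinearMap.snd ℝ _ ℝ, fun i => by simp [v]⟩
  have hvert : ∀ i, IsFace v {i} := by
    intro i
    obtain ⟨f, hf⟩ := exists_exposing hfin hconv i i.2
    refine ⟨mk (-f.toLinearMap) (-f i), ?_, ?_⟩
    · intro j
      rw [hmk]
      by_cases hij : j = i
      · subst hij; simp
      · have h1 := hf j j.2 (fun hcon => hij (Subtype.ext hcon))
        simp only [LinearMap.neg_apply, ContinuousLinearMap.coe_coe]
        linarith
    · ext j
      rw [Finset.mem_singleton, mem_zs, hmk]
      constructor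
      · rintro rfl; simp
      · rintro ⟨_, h1⟩
        by_contra hij
        have h2 := hf j j.2 (fun hcon => hij (Subtype.ext hcon))
        simp only [LinearMap.neg_apply, ContinuousLinearMap.coe_coe] at h1
        linarith
  have hne_zs : ∀ F : Facet P, (zs v (h F) Finset.univ).Nonempty := by
    intro F
    obtain ⟨_, ⟨x, hx⟩, _⟩ := F.2
    rw [hface F] at hx
    have h1 : {x | x ∈ P.extremePoints ℝ ∧ b F - inner ℝ (a F) x = 0}.Nonempty :=
      convexHull_nonempty_iff.1 ⟨x, hx⟩
    obtain ⟨z, hz, hz0⟩ := h1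
    exact ⟨⟨z, hz⟩, mem_zs.2 ⟨Finset.mem_univ _, by rw [hh]; exact hz0⟩⟩
  have hk : ∀ F : Facet P, (∀ i, 0 ≤ h F (v i)) ∧
      rk v (zs v (h F) Finset.univ) + 1 = rk v Finset.univ := by
    intro F
    refine ⟨fun i => ?_, ?_⟩
    · rw [hh]
      exact (hdef F).1 _ (extremePoints_subset i.2)
    · have h1 := hface_rk (toF F) (b F) (hdef F).1 (hne_zs F)
      have h2 : {x | x ∈ P ∧ b F - toF F x = 0} = (F : Set (EuclideanSpace ℝ (Fin d))) :=
        (hdef F).2.symm
      rw [h2] at h1
      have h3 : Module.finrank ℝ (vectorSpan ℝ (F : Set (EuclideanSpace ℝ (Fin d)))) + 1 = d :=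
        F.2.2.2
      have h4 : rk v (zs v (h F) Finset.univ) = rk v (zs v (mk (toF F) (b F)) Finset.univ) := rfl
      rw [hrank, h4, h1, h3]
  have hfacet : ∀ g : Module.Dual ℝ (EuclideanSpace ℝ (Fin d) × ℝ), (∀ i, 0 ≤ g (v i)) →
      rk v (zs v g Finset.univ) + 1 = rk v Finset.univ →
      ∃ k, zs v (h k) Finset.univ = zs v g Finset.univ := by
    intro g hg hgr
    let f : Module.Dual ℝ (EuclideanSpace ℝ (Fin d)) := -(g.comp (LinearMap.inl ℝ _ ℝ))
    let c : ℝ := g (0, 1)
    have hgf : ∀ x, g (x, 1) = c - f x := by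
      intro x
      have h1 : ((x, (1 : ℝ)) : EuclideanSpace ℝ (Fin d) × ℝ) = (x, 0) + (0, 1) := by
        ext <;> simp
      rw [h1, map_add]
      simp only [f, c, LinearMap.neg_apply, LinearMap.comp_apply, LinearMap.inl_apply]
      ring
    have hg_eq : ∀ i, g (v i) = mk f c (v i) := by
      intro i
      rw [hmk]
      exact hgf _
    have hzs_eq : zs v g Finset.univ = zs v (mk f c) Finset.univ := by
      ext i
      rw [mem_zs, mem_zs, hg_eq]
    have hfP : ∀ x ∈ P, 0 ≤ c - f x := by
      have h1 : convexHull ℝ (P.extremePoints ℝ) ⊆ {x | 0 ≤ c - f x} := by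
        apply convexHull_min
        · intro x hx
          have h2 := hg ⟨x, hx⟩
          rw [hg_eq, hmk] at h2
          exact h2
        · intro x hx y hy s t hs ht hst
          show 0 ≤ c - f (s • x + t • y)
          have hx' : 0 ≤ c - f x := hx
          have hy' : 0 ≤ c - f y := hy
          rw [map_add, map_smul, map_smul, smul_eq_mul, smul_eq_mul]
          have h3 : c - (s * f x + t * f y) = s * (c - f x) + t * (c - f y) := by
            have h4 : c = s * c + t * c := by rw [← add_mul, hst, one_mul]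
            linear_combination h4
          rw [h3]
          positivity
      intro x hx
      rw [← hconv] at hx
      exact h1 hx
    have hne : (zs v (mk f c) Finset.univ).Nonempty := by
      rw [Finset.nonempty_iff_ne_empty]
      intro hcon
      rw [hzs_eq, hcon, hrank, rk, Finset.coe_empty, Set.image_empty, Submodule.span_empty,
        finrank_bot] at hgr
      omega
    have hr := hface_rk f c hfP hne
    obtain ⟨i0, hi0⟩ := hne
    have hi0' : c - f (i0 : EuclideanSpace ℝ (Fin d)) = 0 := by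
      rw [← hmk]; exact (mem_zs.1 hi0).2
    have hF0 : IsFacet P {x | x ∈ P ∧ c - f x = 0} := by
      refine ⟨?_, ⟨i0, extremePoints_subset i0.2, hi0'⟩, ?_⟩
      · intro _
        refine ⟨LinearMap.toContinuousLinearMap f, ?_⟩
        ext x
        constructor
        · rintro ⟨hx, hx0⟩
          refine ⟨hx, fun y hy => ?_⟩
          have h1 := hfP y hy
          rw [LinearMap.coe_toContinuousLinearMap']
          linarith
        · rintro ⟨hx, hx0⟩
          refine ⟨hx, ?_⟩
          have h1 := hx0 i0 (extremePoints_subset i0.2)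
          have h2 := hfP x hx
          rw [LinearMap.coe_toContinuousLinearMap'] at h1
          linarith
      · rw [← hr, ← hzs_eq]
        omega
    refine ⟨⟨_, hF0⟩, ?_⟩
    ext i
    rw [mem_zs, mem_zs, hmemF, hg_eq, hmk]
    constructor
    · rintro ⟨_, _, h1⟩
      exact ⟨Finset.mem_univ _, h1⟩
    · rintro ⟨_, h1⟩
      exact ⟨Finset.mem_univ _, extremePoints_subset i.2, h1⟩
  have hinj : ∀ F G : Facet P, zs v (h F) Finset.univ = zs v (h G) Finset.univ → F = G := by
    intro F G hFG
    apply hdetF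
    intro i
    have h1 := Finset.ext_iff.1 hFG i
    rw [mem_zs, mem_zs] at h1
    simpa using h1
  -- the psd factorization
  have hfact : HasPsdFactorization S (d + 1) := by
    have h1 : (sInf {k | HasPsdFactorization S k}) ∈ {k | HasPsdFactorization S k} := by
      apply Nat.sInf_mem
      apply Nat.nonempty_of_pos_sInf
      have : psdRank S = sInf {k | HasPsdFactorization S k} := rfl
      rw [← this, hrankS]
      exact Nat.succ_pos d
    have h2 : sInf {k | HasPsdFactorization S k} = d + 1 := hrankS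
    rw [h2] at h1
    exact h1
  obtain ⟨A, B, hA, hB, hAB⟩ := hfact
  have hfinal := card_facets_and_vertices_le hE v h hrank hpos hvert hk hfacet hinj A B hA hB
    (fun i F => by rw [hh, ← hSval, hAB])
  have hc1 : {F : Set (EuclideanSpace ℝ (Fin d)) | IsFacet P F}.ncard = Fintype.card (Facet P) := by
    rw [← Nat.card_coe_set_eq, Nat.card_eq_fintype_card]
  refine ⟨Set.toFinite _, ?_⟩
  rw [hc1]
  have := hfinal.1
  omega

end Pool.Agent.Results.MP_d7e3e4_co.FacetBound
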